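import Pool.Agent.K9h56.CX.Word

/-!
# Lempel-Ziv parses of the parity words of the cycles of the `3x+k` maps
-/

set_option autoImplicit false

namespace Pool.Agent.K9h56.CX

open Finset Pool.Agent.K9h56.SC

/-- the size -/
noncomputable def lg (k x : ℤ) : ℝ := Real.logb 2 (|(x : ℝ)| + |(k : ℝ)|)

/-- `log 3 / log 2` -/
noncomputable def dl : ℝ := Real.logb 2 3

theorem dl_ge : 3 / 2 ≤ dl := by
  unfold dl
  rw [Real.le_logb_iff_rpow_le (by norm_num) (by norm_num)]
  have h : ((2 : ℝ) ^ (3 / 2 : ℝ)) ^ 2 ≤ 3 ^ 2 := by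
    rw [← Real.rpow_natCast, ← Real.rpow_mul (by norm_num)]
    norm_num
  exact le_of_sq_le_sq h (by norm_num)

theorem dl_le : dl ≤ Real.exp (1 / 2) := by
  have h1 : dl ≤ 8 / 5 := by
    unfold dl
    rw [Real.logb_le_iff_le_rpow (by norm_num) (by norm_num)]
    have h : (3 : ℝ) ^ 5 ≤ ((2 : ℝ) ^ (8 / 5 : ℝ)) ^ 5 := by
      rw [← Real.rpow_natCast ((2 : ℝ) ^ (8 / 5 : ℝ)), ← Real.rpow_mul (by norm_num)]
      norm_num
    exact le_of_pow_le_pow_left₀ (by norm_num) (by positivity) h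
  have h2 : (1 : ℝ) / 2 + 1 + (1 / 2) ^ 2 / 2 ≤ Real.exp (1 / 2) := by
    have := Real.quadratic_le_exp_of_nonneg (show (0 : ℝ) ≤ 1 / 2 by norm_num)
    linarith
  norm_num at h2 ⊢
  linarith

theorem abs_k {k : ℤ} (hk : k % 2 = 1) : (1 : ℝ) ≤ |(k : ℝ)| := Pool.Agent.Y780.Cz.one_le_abs_k hk

theorem lg_nonneg {k : ℤ} (hk : k % 2 = 1) (x : ℤ) : 0 ≤ lg k x :=
  Real.logb_nonneg (by norm_num) (by have := abs_nonneg (x : ℝ); have := abs_k hk; linarith)

theorem lg_T {k : ℤ} (hk : k % 2 = 1) (x : ℤ) : lg k (T k x) ≤ lg k x + (dl - 1) := by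
  have h := Pool.Agent.Y780.Cz.abs_T_le (q := 3) (k := k) (by norm_num) (by norm_num) hk x
  push_cast at h
  have h0 := abs_nonneg (x : ℝ)
  have hk1 := abs_k hk
  have h1 := abs_nonneg (T k x : ℝ)
  unfold lg dl
  have e : Real.logb 2 (|(x : ℝ)| + |(k : ℝ)|) + (Real.logb 2 3 - 1) =
      Real.logb 2 (3 / 2 * (|(x : ℝ)| + |(k : ℝ)|)) := by
    rw [Real.logb_mul (by norm_num) (by positivity), Real.logb_div (by norm_num) (by norm_num),
      Real.logb_self_eq_one (by norm_num)]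
    ring
  rw [e]
  exact Real.logb_le_logb_of_le (by norm_num) (by positivity) h

theorem lg_iter {k : ℤ} (hk : k % 2 = 1) (x : ℤ) (i : ℕ) : lg k ((T k)^[i] x) ≤ lg k x + i * (dl - 1) := by
  induction i with
  | zero => simp
  | succ i ih =>
    rw [Function.iterate_succ_apply']
    have h := lg_T hk ((T k)^[i] x)
    push_cast
    linarith

theorem phrase_le {k : ℤ} (hk : k % 2 = 1) (x : ℤ) (n a b : ℕ)
    (hinj : ∀ i < n, ∀ j < n, (T k)^[i] x = (T k)^[j] x → i = j) (ha : a < n)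
    (h : b = a + 1 ∨ ∃ j < a, ∀ i, a + i + 1 < b → par k x (a + i) = par k x (j + i))
    (hab : a < b) (U : ℝ) (hU : ∀ i ≤ a, 2 + lg k ((T k)^[i] x) ≤ U) : (b : ℝ) - a ≤ U := by
  have hU2 : 2 ≤ U := by
    have h1 := hU a le_rfl
    have h2 := lg_nonneg hk ((T k)^[a] x)
    linarith
  rcases h with h | ⟨j, hj, h⟩
  · rw [h]; push_cast; linarith
  · obtain ⟨g, hg⟩ : ∃ g, b = a + 1 + g := ⟨b - (a + 1), by omega⟩
    have hne : (T k)^[a] x ≠ (T k)^[j] x := fun he => by
      have := hinj a ha j (by omega) he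
      omega
    have h1 := Pool.Agent.Y780.Cz.run_le (q := 3) (k := k) (by norm_num) hk g ((T k)^[a] x) ((T k)^[j] x) hne
      (fun i hi => by
        rw [← T_eq_TY, ← Function.iterate_add_apply, ← Function.iterate_add_apply, Nat.add_comm i a,
          Nat.add_comm i j]
        exact h i (by omega))
    have h2 : Real.logb 2 (Pool.Agent.Y780.Cz.mx k ((T k)^[a] x) ((T k)^[j] x)) ≤ U - 2 := by
      unfold Pool.Agent.Y780.Cz.mx
      have ha' := hU a le_rfl
      have hj' := hU j (by omega)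
      unfold lg at ha' hj'
      rcases max_choice |(((T k)^[a] x : ℤ) : ℝ)| |(((T k)^[j] x : ℤ) : ℝ)| with e | e <;>
        rw [e] <;> linarith
    rw [hg]
    push_cast
    linarith

theorem mono_t {z : ℕ} {t : ℕ → ℕ} (h : ∀ k < z, t k < t (k + 1)) {a b : ℕ} (hab : a ≤ b) (hb : b ≤ z) :
    t a ≤ t b := by
  induction b, hab using Nat.le_induction with
  | base => exact le_rfl
  | succ b hab ih => exact (ih (by omega)).trans (h b (by omega)).le

theorem geom (z : ℕ) : ∑ j ∈ range z, dl ^ j ≤ 2 * Real.exp (z / 2) := by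
  have hd := dl_ge
  have hd2 := dl_le
  rw [geom_sum_eq (by linarith)]
  have h1 : dl ^ z ≤ Real.exp (z / 2) := by
    calc dl ^ z ≤ Real.exp (1 / 2) ^ z := pow_le_pow_left₀ (by linarith) hd2 z
      _ = Real.exp (z / 2) := by rw [← Real.exp_nat_mul]; congr 1; ring
  rw [div_le_iff₀ (by linarith)]
  have h2 := Real.exp_pos (z / 2 : ℝ)
  nlinarith

/-- the bound for trajectories -/
theorem traj {k : ℤ} (hk : k % 2 = 1) (x : ℤ) (n z : ℕ)
    (hinj : ∀ i < n, ∀ j < n, (T k)^[i] x = (T k)^[j] x → i = j) (hP : Phrases (par k x) n z) :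
    (n : ℝ) ≤ (2 + lg k x) * (2 * Real.exp (z / 2)) := by
  obtain ⟨t, h0, hz, h⟩ := hP
  have hd := dl_ge
  have hlt : ∀ k < z, t k < n := fun k hk =>
    lt_of_lt_of_le (h k hk).1 ((mono_t (fun k hk => (h k hk).1) (show k + 1 ≤ z from hk) le_rfl).trans hz.le)
  have key : ∀ s ≤ z, (t s : ℝ) ≤ (2 + lg k x) * ∑ j ∈ range s, dl ^ j ∧
      ∀ i ≤ t s, 2 + lg k ((T k)^[i] x) ≤ (2 + lg k x) * dl ^ s := by
    intro s
    induction s with
    | zero =>
      intro _
      rw [h0]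
      refine ⟨by simp, fun i hi => ?_⟩
      have : i = 0 := by omega
      rw [this]; simp
    | succ s ih =>
      intro hs
      obtain ⟨h1, h2⟩ := ih (by omega)
      have h3 := phrase_le hk x n (t s) (t (s + 1)) hinj (hlt s (by omega)) (h s (by omega)).2
        (h s (by omega)).1 _ h2
      have hpos : 0 ≤ (2 + lg k x) * dl ^ s := by
        have := lg_nonneg hk x
        positivity
      refine ⟨?_, fun i hi => ?_⟩
      · rw [Finset.sum_range_succ, mul_add]
        linarith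
      · have e : (2 + lg k x) * dl ^ (s + 1) = (2 + lg k x) * dl ^ s + (dl - 1) * ((2 + lg k x) * dl ^ s) := by
          rw [pow_succ]; ring
        rcases Nat.lt_or_ge i (t s) with hik | hik
        · have := h2 i hik.le
          rw [e]
          have h5 : 0 ≤ (dl - 1) * ((2 + lg k x) * dl ^ s) := mul_nonneg (by linarith) hpos
          linarith
        · obtain ⟨c, rfl⟩ := Nat.exists_eq_add_of_le hik
          have h4 := lg_iter hk ((T k)^[t s] x) c
          rw [← Function.iterate_add_apply, Nat.add_comm c (t s)] at h4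
          have h5 := h2 (t s) le_rfl
          have h6 : (c : ℝ) ≤ (2 + lg k x) * dl ^ s := by
            have : ((t s + c : ℕ) : ℝ) ≤ t (s + 1) := by exact_mod_cast hi
            push_cast at this
            linarith
          have h7 : (c : ℝ) * (dl - 1) ≤ ((2 + lg k x) * dl ^ s) * (dl - 1) :=
            mul_le_mul_of_nonneg_right h6 (by linarith)
          rw [e]
          linarith
  have h1 := (key z le_rfl).1
  rw [hz] at h1
  refine h1.trans (mul_le_mul_of_nonneg_left (geom z) ?_)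
  have := lg_nonneg hk x
  linarith

theorem inj_of_minimalPeriod {k x : ℤ} {p : ℕ} (h : Function.minimalPeriod (T k) x = p) :
    ∀ i < p, ∀ j < p, (T k)^[i] x = (T k)^[j] x → i = j := by
  subst h
  intro i hi j hj he
  exact Function.iterate_injOn_Iio_minimalPeriod (Set.mem_Iio.2 hi) (Set.mem_Iio.2 hj) he

/-- cycles whose parity words, from a least element on, have few phrases -/
theorem phrases_bound : ∃ B : ℝ, 1 ≤ B ∧ ∀ k : ℤ, k % 2 = 1 → ∀ (x : ℤ) (p z : ℕ), 1 ≤ p →
    Function.minimalPeriod (T k) x = p → (∀ i, |x| ≤ |(T k)^[i] x|) → Phrases (par k x) p z →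
    (p : ℝ) ≤ B * Real.exp (z / 2) * (Real.log |(k : ℝ)| + (1 + Real.log p) ^ 2) := by
  obtain ⟨B, hB, h⟩ := Pool.Agent.H547R3.Sub.min_size (q := 3) Nat.prime_three (by norm_num)
  refine ⟨8 * (B + 2), by linarith, fun k hk x p z hp hmp hmin hP => ?_⟩
  obtain ⟨hper, -⟩ := iterate_minimalPeriod_ne hmp
  have h1 := traj hk x p z (inj_of_minimalPeriod hmp) hP
  obtain ⟨i0, -, h2⟩ := h k hk x p hp (by rw [T_eq_Tm] at hper; exact hper)
  rw [← T_eq_Tm] at h2
  have hpR : (1 : ℝ) ≤ p := by exact_mod_cast hp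
  have hlp := Real.log_nonneg hpR
  have hlk := log_abs_nonneg hk
  have hk1 := abs_k hk
  have h3 : lg k x ≤ 2 * (Real.log |(k : ℝ)| + B * (1 + Real.log p) ^ 2) := by
    have h4 : |(x : ℝ)| ≤ |(((T k)^[i0] x : ℤ) : ℝ)| := by exact_mod_cast hmin i0
    have h5 : Real.log (|(x : ℝ)| + |(k : ℝ)|) ≤ Real.log |(k : ℝ)| + B * (1 + Real.log p) ^ 2 :=
      (Real.log_le_log (by have := abs_nonneg (x : ℝ); linarith) (by linarith)).trans h2
    have h6 : 1 / 2 ≤ Real.log 2 := by have := Real.log_two_gt_d9; linarith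
    have h7 : 0 ≤ Real.log (|(x : ℝ)| + |(k : ℝ)|) :=
      Real.log_nonneg (by have := abs_nonneg (x : ℝ); linarith)
    unfold lg Real.logb
    rw [div_le_iff₀ (by linarith)]
    nlinarith
  have hsq : 1 ≤ (1 + Real.log p) ^ 2 := by nlinarith
  set Q := Real.log |(k : ℝ)| + (1 + Real.log p) ^ 2 with hQ
  have h8 : 2 + lg k x ≤ 4 * (B + 2) * Q := by
    have : 2 * (B * (1 + Real.log p) ^ 2) ≤ 2 * B * Q := by rw [hQ]; nlinarith [mul_nonneg hB.le hlk]
    nlinarith
  have hE := Real.exp_pos (z / 2 : ℝ)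
  calc (p : ℝ) ≤ (2 + lg k x) * (2 * Real.exp (z / 2)) := h1
    _ ≤ (4 * (B + 2) * Q) * (2 * Real.exp (z / 2)) := mul_le_mul_of_nonneg_right h8 (by positivity)
    _ = 8 * (B + 2) * Real.exp (z / 2) * Q := by ring

end Pool.Agent.K9h56.CX
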