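import Pool.Agent.K9h56.CX.LZ

/-!
# For most `k` the cycles of the `3x+k` map which are not multiples have complex parity words
-/

set_option autoImplicit false

namespace Pool.Agent.K9h56.CX

open Finset Filter Pool.Agent.K9h56.SC

/-- The orbit of `x` ends in a cycle whose parity word is a concatenation of `m` words with periods at
most `ℓ`. -/
def InPieces (k x : ℤ) (ℓ m : ℕ) : Prop :=
  ∃ j p : ℕ, 1 ≤ p ∧ Function.minimalPeriod (T k) ((T k)^[j] x) = p ∧ Splits (par k ((T k)^[j] x)) ℓ m p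

/-- The orbit of `x` ends in a cycle whose parity word, read from an element of least absolute value on,
has a parse into `z` phrases. -/
def InPhrases (k x : ℤ) (z : ℕ) : Prop :=
  ∃ j p : ℕ, 1 ≤ p ∧ Function.minimalPeriod (T k) ((T k)^[j] x) = p ∧
    (∀ i, |(T k)^[j] x| ≤ |(T k)^[i] ((T k)^[j] x)|) ∧ Phrases (par k ((T k)^[j] x)) p z

theorem odd_of_coprime {k : ℤ} (hk : IsCoprime k 6) : k % 2 = 1 := by
  by_contra h
  have h1 : (2 : ℤ) ∣ k := by omega
  have h2 : IsCoprime (2 : ℤ) 2 := (hk.of_isCoprime_of_dvd_left h1).of_isCoprime_of_dvd_right ⟨3, by norm_num⟩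
  have h3 : IsUnit (2 : ℤ) := isCoprime_self.1 h2
  rw [Int.isUnit_iff] at h3
  omega

theorem absorb {κ : ℝ} (h0 : 0 < κ) (h1 : κ < 1) : ∃ K : ℝ, 1 ≤ K ∧ ∀ p E L : ℝ, 1 ≤ p → 0 ≤ E → 0 ≤ L →
    p ≤ E * (L + (1 + Real.log p) ^ 2) → p ≤ 2 * E * L ∨ p ≤ (K * E) ^ (1 / (1 - κ)) := by
  refine ⟨2 * (1 + 2 / κ) ^ 2, ?_, fun p E L hp hE hL h => ?_⟩
  · have : 0 < 2 / κ := by positivity
    nlinarith
  have hlp := Real.log_nonneg hp
  have hp0 : 0 < p := by linarith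
  rcases le_total ((1 + Real.log p) ^ 2) L with h2 | h2
  · left
    have := mul_le_mul_of_nonneg_left h2 hE
    linarith
  · right
    have h3 : p ≤ 2 * E * (1 + Real.log p) ^ 2 := by
      have := mul_le_mul_of_nonneg_left h2 hE
      linarith
    have h4 : Real.log p ≤ p ^ (κ / 2) / (κ / 2) := Real.log_le_rpow_div hp0.le (by positivity)
    have h5 : (1 : ℝ) ≤ p ^ (κ / 2) := Real.one_le_rpow hp (by positivity)
    have h6 : 1 + Real.log p ≤ (1 + 2 / κ) * p ^ (κ / 2) := by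
      have e : p ^ (κ / 2) / (κ / 2) = 2 / κ * p ^ (κ / 2) := by field_simp
      rw [e] at h4
      linarith
    have h7 : (1 + Real.log p) ^ 2 ≤ (1 + 2 / κ) ^ 2 * p ^ κ := by
      calc (1 + Real.log p) ^ 2 ≤ ((1 + 2 / κ) * p ^ (κ / 2)) ^ 2 := pow_le_pow_left₀ (by linarith) h6 2
        _ = (1 + 2 / κ) ^ 2 * p ^ κ := by
          rw [mul_pow, ← Real.rpow_natCast (p ^ (κ / 2)), ← Real.rpow_mul hp0.le]
          congr 2; push_cast; ring
    have h8 : p ^ (1 - κ) ≤ 2 * (1 + 2 / κ) ^ 2 * E := by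
      rw [Real.rpow_sub hp0, Real.rpow_one, div_le_iff₀ (by positivity)]
      calc p ≤ 2 * E * (1 + Real.log p) ^ 2 := h3
        _ ≤ 2 * E * ((1 + 2 / κ) ^ 2 * p ^ κ) := mul_le_mul_of_nonneg_left h7 (by positivity)
        _ = _ := by ring
    calc p = (p ^ (1 - κ)) ^ (1 / (1 - κ)) := by
          rw [← Real.rpow_mul hp0.le, mul_one_div, div_self (by linarith), Real.rpow_one]
      _ ≤ _ := Real.rpow_le_rpow (by positivity) h8 (by have : 0 < 1 - κ := by linarith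
                                                        positivity)

/-! ### prime `k` -/

theorem primeExc_card {P : ℝ} (hP : 1 ≤ P) {S : Set ℤ} (hS : ∀ k ∈ S, k.natAbs.Prime ∧ IsCoprime k 6 ∧
    ∃ (x : ℤ) (p : ℕ), EndsIn k x p ∧ (p : ℝ) ≤ P ∧ ¬ k ∣ x) : S.Finite ∧ (S.ncard : ℝ) ≤ 80 * P ^ 3 := by
  set N := max 2 ⌊P⌋₊ with hN
  have hN2 : 2 ≤ N := le_max_left _ _
  obtain ⟨h1, h2⟩ := prime_case N hN2
  have hsub : S ⊆ PrimeExc N := by
    intro k hk
    obtain ⟨a, b, x, p, c, d, e⟩ := hS k hk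
    exact ⟨a, b, x, p, c, (Nat.le_floor d).trans (le_max_right _ _), e⟩
  refine ⟨h1.subset hsub, ?_⟩
  have h3 : (S.ncard : ℝ) ≤ ((PrimeExc N).ncard : ℝ) := by exact_mod_cast Set.ncard_le_ncard hsub h1
  refine h3.trans (h2.trans ?_)
  have hNP : (N : ℝ) ≤ 2 * P := by
    rw [hN]; push_cast
    exact max_le (by linarith) ((Nat.floor_le (by linarith)).trans (by linarith))
  have hN0 : (2 : ℝ) ≤ N := by exact_mod_cast hN2
  have hl : 1 / 2 ≤ Real.log N := by
    have h4 := Real.log_two_gt_d9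
    have h5 := Real.log_le_log (by norm_num) hN0
    linarith
  rw [div_le_iff₀ (by linarith)]
  have h6 : (N : ℝ) ^ 3 ≤ (2 * P) ^ 3 := pow_le_pow_left₀ (by linarith) hNP 3
  have h7 : 0 ≤ P ^ 3 := by positivity
  nlinarith

theorem ends_of_pieces {k x : ℤ} {j p : ℕ} (hp : 1 ≤ p)
    (h : Function.minimalPeriod (T k) ((T k)^[j] x) = p) : EndsIn k x p := ⟨hp, j, h⟩

theorem log_k_le {k : ℤ} {X : ℝ} (hk : k % 2 = 1) (h : |(k : ℝ)| ≤ X) : Real.log |(k : ℝ)| ≤ Real.log X :=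
  Real.log_le_log (by have := abs_k hk; linarith) h

theorem prime_pieces {δ : ℝ} (hδ : 0 < δ) : ∃ A : ℝ, 0 < A ∧ ∀ (K : ℝ) (ℓ m : ℕ), 2 ≤ K →
    ({k : ℤ | |(k : ℝ)| ≤ K ∧ k.natAbs.Prime ∧ IsCoprime k 6 ∧ ∃ x, InPieces k x ℓ m ∧ ¬ k ∣ x}.ncard : ℝ) ≤
      A * Real.exp (δ * m) * (ℓ + Real.log K) ^ 3 := by
  obtain ⟨A, hA, h⟩ := pieces_bound (δ := δ / 3) (by positivity)
  refine ⟨80 * 27 * A ^ 3, by positivity, fun K ℓ m hK => ?_⟩
  have hlK : 1 / 2 ≤ Real.log K := by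
    have h4 := Real.log_two_gt_d9
    have h5 := Real.log_le_log (by norm_num) hK
    linarith
  have hE : 1 ≤ Real.exp (δ / 3 * m) := Real.one_le_exp (by positivity)
  have hℓ : (0 : ℝ) ≤ ℓ := Nat.cast_nonneg _
  set P := A * Real.exp (δ / 3 * m) * (3 * (ℓ + Real.log K)) with hP
  have hP1 : 1 ≤ P := by
    rw [hP]
    have h1 : 1 ≤ A * Real.exp (δ / 3 * m) := by nlinarith
    nlinarith
  obtain ⟨-, hcard⟩ := primeExc_card hP1
    (S := {k : ℤ | |(k : ℝ)| ≤ K ∧ k.natAbs.Prime ∧ IsCoprime k 6 ∧ ∃ x, InPieces k x ℓ m ∧ ¬ k ∣ x}) (by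
      rintro k ⟨hkK, hq, hk, x, ⟨j, p, hp, hmp, hS⟩, hkx⟩
      refine ⟨hq, hk, x, p, ends_of_pieces hp hmp, ?_, hkx⟩
      have hodd := odd_of_coprime hk
      refine (h k hodd _ p m ℓ hp hmp hS).trans ?_
      rw [hP]
      apply mul_le_mul_of_nonneg_left _ (by positivity)
      have := log_k_le hodd hkK
      linarith)
  refine hcard.trans (le_of_eq ?_)
  rw [hP]
  have e : Real.exp (δ * m) = Real.exp (δ / 3 * m) ^ 3 := by
    rw [← Real.exp_nat_mul]; congr 1; push_cast; ring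
  rw [e]
  ring

theorem prime_phrases : ∃ A : ℝ, 0 < A ∧ ∀ (K : ℝ) (z : ℕ), 2 ≤ K →
    ({k : ℤ | |(k : ℝ)| ≤ K ∧ k.natAbs.Prime ∧ IsCoprime k 6 ∧ ∃ x, InPhrases k x z ∧ ¬ k ∣ x}.ncard : ℝ) ≤
      A * Real.exp (2 * z) * (Real.log K) ^ 3 := by
  obtain ⟨B, hB, h⟩ := phrases_bound
  obtain ⟨C, hC, hab⟩ := absorb (κ := 1 / 4) (by norm_num) (by norm_num)
  set D := 2 * B + 2 * (C * B) ^ (4 / 3 : ℝ) with hD
  have hD1 : 2 ≤ D := by
    rw [hD]
    have : 0 ≤ (C * B) ^ (4 / 3 : ℝ) := by positivity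
    linarith
  refine ⟨80 * D ^ 3, by positivity, fun K z hK => ?_⟩
  have hlK : 1 / 2 ≤ Real.log K := by
    have h4 := Real.log_two_gt_d9
    have h5 := Real.log_le_log (by norm_num) hK
    linarith
  set F := Real.exp (2 * z / 3 : ℝ) with hF
  have hE : 1 ≤ F := Real.one_le_exp (by positivity)
  set P := D * F * Real.log K with hP
  have hP1 : 1 ≤ P := by
    rw [hP]
    have h1 : 2 ≤ D * F := by nlinarith
    nlinarith
  obtain ⟨-, hcard⟩ := primeExc_card hP1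
    (S := {k : ℤ | |(k : ℝ)| ≤ K ∧ k.natAbs.Prime ∧ IsCoprime k 6 ∧ ∃ x, InPhrases k x z ∧ ¬ k ∣ x}) (by
      rintro k ⟨hkK, hq, hk, x, ⟨j, p, hp, hmp, hmin, hS⟩, hkx⟩
      refine ⟨hq, hk, x, p, ends_of_pieces hp hmp, ?_, hkx⟩
      have hodd := odd_of_coprime hk
      have h1 := h k hodd _ p z hp hmp hmin hS
      have h2 := log_k_le hodd hkK
      have h3 : (p : ℝ) ≤ B * Real.exp (z / 2) * (Real.log K + (1 + Real.log p) ^ 2) :=
        h1.trans (mul_le_mul_of_nonneg_left (by linarith) (by positivity))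
      have hz : Real.exp (z / 2 : ℝ) ≤ F := by
        rw [hF]; apply Real.exp_le_exp.2
        have : (0 : ℝ) ≤ z := Nat.cast_nonneg _
        linarith
      rcases hab p (B * Real.exp (z / 2)) (Real.log K) (by exact_mod_cast hp) (by positivity) (by linarith) h3 with
        h4 | h4
      · refine h4.trans ?_
        rw [hP]
        apply mul_le_mul_of_nonneg_right _ (by linarith)
        have h5 : B * Real.exp (z / 2 : ℝ) ≤ B * F := mul_le_mul_of_nonneg_left hz (by linarith)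
        have h6 : 0 ≤ 2 * (C * B) ^ (4 / 3 : ℝ) * F := by positivity
        rw [hD, add_mul]
        linarith
      · refine h4.trans ?_
        have e : (C * (B * Real.exp (z / 2 : ℝ))) ^ (1 / (1 - 1 / 4) : ℝ) = (C * B) ^ (4 / 3 : ℝ) * F := by
          rw [← mul_assoc, Real.mul_rpow (by positivity) (by positivity), hF, ← Real.exp_mul]
          norm_num
          left
          ring_nf
        rw [e, hP]
        have h5 : (C * B) ^ (4 / 3 : ℝ) * F ≤ (C * B) ^ (4 / 3 : ℝ) * F * (2 * Real.log K) :=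
          le_mul_of_one_le_right (by positivity) (by linarith)
        have h6 : 0 ≤ 2 * B * F * Real.log K := by positivity
        rw [hD]
        nlinarith)
  refine hcard.trans (le_of_eq ?_)
  rw [hP]
  have e : Real.exp (2 * z : ℝ) = F ^ 3 := by
    rw [hF, ← Real.exp_nat_mul]; congr 1; push_cast; ring
  rw [e]
  ring

/-! ### almost all `k` -/

theorem gcd_complex {ε δ : ℝ} (hε : 0 < ε) (hδ : 0 < δ) : ∃ η : ℝ, 0 < η ∧ ∀ C : ℝ, ∀ᶠ X : ℝ in atTop,
    (({k : ℤ | |(k : ℝ)| ≤ X ∧ IsCoprime k 6 ∧ ∃ x : ℤ,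
      ((∃ ℓ m : ℕ, (ℓ : ℝ) ≤ X ^ η ∧ (m : ℝ) ≤ C * Real.log X ∧ InPieces k x ℓ m) ∨
        ∃ z : ℕ, (z : ℝ) ≤ η * Real.log X ∧ InPhrases k x z) ∧
      (Int.gcd x k : ℝ) < X ^ (1 - δ)}).ncard : ℝ) ≤ ε * X := by
  obtain ⟨η, hη, h⟩ := gcd_case hε hδ
  refine ⟨η / 4, by positivity, fun C => ?_⟩
  set C' := max C 1 with hC'
  have hC1 : 1 ≤ C' := le_max_right _ _
  obtain ⟨A, hA, hA2⟩ := pieces_bound (δ := η / (4 * C')) (by positivity)
  obtain ⟨B, hB, hB2⟩ := phrases_bound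
  obtain ⟨K, hK, hab⟩ := absorb (κ := 1 / 2) (by norm_num) (by norm_num)
  have ev1 : ∀ᶠ X : ℝ in atTop, 3 * A ≤ X ^ (η / 2) :=
    (tendsto_rpow_atTop (by positivity)).eventually_ge_atTop _
  have ev2 : ∀ᶠ X : ℝ in atTop, Real.log X ≤ X ^ (η / 4) := by
    have := (isLittleO_log_rpow_atTop (show 0 < η / 4 by positivity)).bound (show (0 : ℝ) < 1 by norm_num)
    filter_upwards [this, eventually_ge_atTop (1 : ℝ)] with X h1 h2
    rw [one_mul, Real.norm_eq_abs, Real.norm_eq_abs, abs_of_nonneg (Real.log_nonneg h2),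
      abs_of_nonneg (by positivity)] at h1
    exact h1
  have ev3 : ∀ᶠ X : ℝ in atTop, 2 * B ≤ X ^ (η / 2) :=
    (tendsto_rpow_atTop (by positivity)).eventually_ge_atTop _
  have ev4 : ∀ᶠ X : ℝ in atTop, (K * B) ^ 2 ≤ X ^ (η / 2) :=
    (tendsto_rpow_atTop (by positivity)).eventually_ge_atTop _
  filter_upwards [h, ev1, ev2, ev3, ev4, eventually_ge_atTop (1 : ℝ)] with X hX h1 h2 h3 h4 hX1
  have hX0 : 0 < X := by linarith
  have hlX := Real.log_nonneg hX1
  have h5 : (1 : ℝ) ≤ X ^ (η / 4) := Real.one_le_rpow hX1 (by positivity)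
  have e1 : X ^ (η / 4) * X ^ (η / 4) = X ^ (η / 2) := by rw [← Real.rpow_add hX0]; congr 1; ring
  have e2 : X ^ (η / 2) * X ^ (η / 2) = X ^ η := by rw [← Real.rpow_add hX0]; congr 1; ring
  have hsub : {k : ℤ | |(k : ℝ)| ≤ X ∧ IsCoprime k 6 ∧ ∃ x : ℤ,
      ((∃ ℓ m : ℕ, (ℓ : ℝ) ≤ X ^ (η / 4) ∧ (m : ℝ) ≤ C * Real.log X ∧ InPieces k x ℓ m) ∨
        ∃ z : ℕ, (z : ℝ) ≤ η / 4 * Real.log X ∧ InPhrases k x z) ∧
      (Int.gcd x k : ℝ) < X ^ (1 - δ)} ⊆ GcdExc δ η X := by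
    rintro k ⟨hkX, hk, x, hx, hg⟩
    have hodd := odd_of_coprime hk
    have hlk := log_k_le hodd hkX
    rcases hx with ⟨ℓ, m, hℓ, hm, j, p, hp, hmp, hS⟩ | ⟨z, hz, j, p, hp, hmp, hmin, hS⟩
    · refine ⟨hkX, hk, x, p, ends_of_pieces hp hmp, ?_, hg⟩
      have h6 := hA2 k hodd _ p m ℓ hp hmp hS
      have h7 : Real.exp (η / (4 * C') * m) ≤ X ^ (η / 4) := by
        rw [Real.rpow_def_of_pos hX0]
        apply Real.exp_le_exp.2
        have h8 : (m : ℝ) ≤ C' * Real.log X :=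
          hm.trans (mul_le_mul_of_nonneg_right (le_max_left _ _) hlX)
        calc η / (4 * C') * m ≤ η / (4 * C') * (C' * Real.log X) :=
              mul_le_mul_of_nonneg_left h8 (by positivity)
          _ = Real.log X * (η / 4) := by field_simp
      have h9 : (ℓ : ℝ) + Real.log |(k : ℝ)| + 1 ≤ 3 * X ^ (η / 4) := by linarith
      have hlk0 := log_abs_nonneg hodd
      calc (p : ℝ) ≤ A * Real.exp (η / (4 * C') * m) * (ℓ + Real.log |(k : ℝ)| + 1) := h6
        _ ≤ A * X ^ (η / 4) * (3 * X ^ (η / 4)) := by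
          apply mul_le_mul (mul_le_mul_of_nonneg_left h7 (by linarith)) h9 (by positivity) (by positivity)
        _ = (3 * A) * X ^ (η / 2) := by rw [← e1]; ring
        _ ≤ X ^ (η / 2) * X ^ (η / 2) := mul_le_mul_of_nonneg_right h1 (by positivity)
        _ = X ^ η := e2
    · refine ⟨hkX, hk, x, p, ends_of_pieces hp hmp, ?_, hg⟩
      have h6 := hB2 k hodd _ p z hp hmp hmin hS
      have h7 : Real.exp (z / 2 : ℝ) ≤ X ^ (η / 8) := by
        rw [Real.rpow_def_of_pos hX0]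
        apply Real.exp_le_exp.2
        linarith
      have h8 : (p : ℝ) ≤ B * X ^ (η / 8) * (Real.log X + (1 + Real.log p) ^ 2) := by
        refine h6.trans ?_
        apply mul_le_mul (mul_le_mul_of_nonneg_left h7 (by linarith)) (by linarith)
          (by have := log_abs_nonneg hodd; positivity) (by positivity)
      have e3 : X ^ (η / 8) * X ^ (η / 8) = X ^ (η / 4) := by rw [← Real.rpow_add hX0]; congr 1; ring
      have h10 : X ^ (η / 8) ≤ X ^ (η / 4) := Real.rpow_le_rpow_of_exponent_le hX1 (by linarith)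
      have h11 : X ^ (η / 4) ≤ X ^ (η / 2) := Real.rpow_le_rpow_of_exponent_le hX1 (by linarith)
      rcases hab p (B * X ^ (η / 8)) (Real.log X) (by exact_mod_cast hp) (by positivity) hlX h8 with h9 | h9
      · calc (p : ℝ) ≤ 2 * (B * X ^ (η / 8)) * Real.log X := h9
          _ ≤ 2 * (B * X ^ (η / 4)) * X ^ (η / 4) := by
            apply mul_le_mul _ h2 hlX (by positivity)
            exact mul_le_mul_of_nonneg_left (mul_le_mul_of_nonneg_left h10 (by linarith)) (by norm_num)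
          _ = 2 * B * X ^ (η / 2) := by rw [← e1]; ring
          _ ≤ X ^ (η / 2) * X ^ (η / 2) := mul_le_mul_of_nonneg_right h3 (by positivity)
          _ = X ^ η := e2
      · refine h9.trans ?_
        have e4 : (1 / (1 - 1 / 2) : ℝ) = (2 : ℕ) := by norm_num
        rw [e4, Real.rpow_natCast]
        calc (K * (B * X ^ (η / 8))) ^ 2 = (K * B) ^ 2 * X ^ (η / 4) := by rw [← e3]; ring
          _ ≤ X ^ (η / 2) * X ^ (η / 2) := mul_le_mul h4 h11 (by positivity) (by positivity)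
          _ = X ^ η := e2
  have := Set.ncard_le_ncard hsub hX.1
  exact le_trans (by exact_mod_cast this) hX.2

end Pool.Agent.K9h56.CX
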