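import Pool.Agent.K9h56.CX.Main

/-!
# For most `k` the cycles prime to `k` of the `3x+k` map have complex parity words
-/

set_option autoImplicit false

namespace Pool.Agent.K9h56.CX

open Finset Filter Pool.Agent.K9h56.SC

theorem prim_complex {A C ε : ℝ} (hA : 1 ≤ A) (hε : 0 < ε) : ∀ᶠ X : ℝ in atTop,
    (({k : ℤ | |(k : ℝ)| ≤ X ∧ IsCoprime k 6 ∧ ∃ x : ℤ, IsCoprime x k ∧
      ((∃ ℓ m : ℕ, (ℓ : ℝ) ≤ (Real.log X) ^ A ∧ (m : ℝ) ≤ C * Real.log (Real.log X) ∧ InPieces k x ℓ m) ∨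
        ∃ z : ℕ, (z : ℝ) ≤ 2 * (A - 1) * Real.log (Real.log X) ∧ InPhrases k x z)}).ncard : ℝ) ≤
      X ^ (1 - 1 / (3 * A) + ε) := by
  set C' := max C 1 with hC'
  have hC1 : 1 ≤ C' := le_max_right _ _
  have hA0 : 0 < A := by linarith
  set A' := A * (1 + ε) with hA'
  have hA'1 : 1 ≤ A' := by rw [hA']; nlinarith
  have hAA : A < A' := by rw [hA']; nlinarith
  obtain ⟨a, ha, ha2⟩ := pieces_bound (δ := A * ε / (2 * C')) (by positivity)
  obtain ⟨B, hB, hB2⟩ := phrases_bound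
  have hκ0 : (0 : ℝ) < 1 / (2 * A) := by positivity
  have hκ1 : 1 / (2 * A) < 1 := by rw [div_lt_one (by positivity)]; linarith
  obtain ⟨K, hK, hab⟩ := absorb hκ0 hκ1
  have hP := prim_case (A := A') (ε := ε / 2) hA'1 (by positivity)
  have hlog : Tendsto Real.log atTop atTop := Real.tendsto_log_atTop
  have ev0 : ∀ᶠ X : ℝ in atTop, Real.exp 1 ≤ X := eventually_ge_atTop _
  have ev1 : ∀ᶠ X : ℝ in atTop, 3 * a ≤ (Real.log X) ^ (A * ε / 2) :=
    ((tendsto_rpow_atTop (by positivity)).comp hlog).eventually_ge_atTop _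
  have ev2 : ∀ᶠ X : ℝ in atTop, 2 * B ≤ (Real.log X) ^ (A * ε) :=
    ((tendsto_rpow_atTop (by positivity)).comp hlog).eventually_ge_atTop _
  have ev3 : ∀ᶠ X : ℝ in atTop, (K * B) ^ (1 / (1 - 1 / (2 * A))) ≤ (Real.log X) ^ (A * ε) :=
    ((tendsto_rpow_atTop (by positivity)).comp hlog).eventually_ge_atTop _
  filter_upwards [hP, ev0, ev1, ev2, ev3] with X hX h0 h1 h2 h3
  have hX0 : 0 < X := lt_of_lt_of_le (Real.exp_pos 1) h0
  have hX1 : 1 ≤ X := by have := Real.add_one_le_exp (1 : ℝ); linarith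
  have hl1 : 1 ≤ Real.log X := by rw [Real.le_log_iff_exp_le hX0]; exact h0
  set M := Real.log X with hM
  have hM0 : 0 < M := by linarith
  have hlM := Real.log_nonneg hl1
  have hMA : M ^ A * M ^ (A * ε) = M ^ A' := by
    rw [← Real.rpow_add hM0]; congr 1; rw [hA']; ring
  have hMA1 : (1 : ℝ) ≤ M ^ A := Real.one_le_rpow hl1 hA0.le
  have hM1A : M ≤ M ^ A := by
    calc M = M ^ (1 : ℝ) := (Real.rpow_one M).symm
      _ ≤ M ^ A := Real.rpow_le_rpow_of_exponent_le hl1 hA
  have hsub : {k : ℤ | |(k : ℝ)| ≤ X ∧ IsCoprime k 6 ∧ ∃ x : ℤ, IsCoprime x k ∧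
      ((∃ ℓ m : ℕ, (ℓ : ℝ) ≤ M ^ A ∧ (m : ℝ) ≤ C * Real.log M ∧ InPieces k x ℓ m) ∨
        ∃ z : ℕ, (z : ℝ) ≤ 2 * (A - 1) * Real.log M ∧ InPhrases k x z)} ⊆ PrimExc A' X := by
    rintro k ⟨hkX, hk, x, hxk, hx⟩
    have hodd := odd_of_coprime hk
    have hlk := log_k_le hodd hkX
    rw [← hM] at hlk
    have hlk0 := log_abs_nonneg hodd
    rcases hx with ⟨ℓ, m, hℓ, hm, j, p, hp, hmp, hS⟩ | ⟨z, hz, j, p, hp, hmp, hmin, hS⟩
    · refine ⟨hkX, hk, x, p, ends_of_pieces hp hmp, ?_, hxk⟩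
      have h6 := ha2 k hodd _ p m ℓ hp hmp hS
      have h7 : Real.exp (A * ε / (2 * C') * m) ≤ M ^ (A * ε / 2) := by
        rw [Real.rpow_def_of_pos hM0]
        apply Real.exp_le_exp.2
        have h8 : (m : ℝ) ≤ C' * Real.log M :=
          hm.trans (mul_le_mul_of_nonneg_right (le_max_left _ _) hlM)
        calc A * ε / (2 * C') * m ≤ A * ε / (2 * C') * (C' * Real.log M) :=
              mul_le_mul_of_nonneg_left h8 (by positivity)
          _ = Real.log M * (A * ε / 2) := by field_simp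
      have h9 : (ℓ : ℝ) + Real.log |(k : ℝ)| + 1 ≤ 3 * M ^ A := by linarith
      have e2 : M ^ (A * ε / 2) * M ^ (A * ε / 2) = M ^ (A * ε) := by
        rw [← Real.rpow_add hM0]; congr 1; ring
      rw [← hM]
      calc (p : ℝ) ≤ a * Real.exp (A * ε / (2 * C') * m) * (ℓ + Real.log |(k : ℝ)| + 1) := h6
        _ ≤ a * M ^ (A * ε / 2) * (3 * M ^ A) := by
          apply mul_le_mul (mul_le_mul_of_nonneg_left h7 (by linarith)) h9 (by positivity) (by positivity)
        _ = (3 * a) * (M ^ (A * ε / 2) * M ^ A) := by ring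
        _ ≤ M ^ (A * ε / 2) * (M ^ (A * ε / 2) * M ^ A) := mul_le_mul_of_nonneg_right h1 (by positivity)
        _ = M ^ A' := by rw [← mul_assoc, e2, mul_comm, hMA]
    · refine ⟨hkX, hk, x, p, ends_of_pieces hp hmp, ?_, hxk⟩
      have h6 := hB2 k hodd _ p z hp hmp hmin hS
      have h7 : Real.exp (z / 2 : ℝ) ≤ M ^ (A - 1) := by
        rw [Real.rpow_def_of_pos hM0]
        apply Real.exp_le_exp.2
        linarith
      have h8 : (p : ℝ) ≤ B * M ^ (A - 1) * (M + (1 + Real.log p) ^ 2) := by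
        refine h6.trans ?_
        apply mul_le_mul (mul_le_mul_of_nonneg_left h7 (by linarith)) (by linarith)
          (by positivity) (by positivity)
      rw [← hM]
      have e3 : M ^ (A - 1) * M = M ^ A := by
        rw [← Real.rpow_add_one hM0.ne']; congr 1; ring
      rcases hab p (B * M ^ (A - 1)) M (by exact_mod_cast hp) (by positivity) hM0.le h8 with h9 | h9
      · calc (p : ℝ) ≤ 2 * (B * M ^ (A - 1)) * M := h9
          _ = 2 * B * M ^ A := by rw [← e3]; ring
          _ ≤ M ^ (A * ε) * M ^ A := mul_le_mul_of_nonneg_right h2 (by positivity)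
          _ = M ^ A' := by rw [mul_comm, hMA]
      · refine h9.trans ?_
        set r := 1 / (1 - 1 / (2 * A)) with hr
        have hr0 : 0 < r := by
          rw [hr]
          have : 0 < 1 - 1 / (2 * A) := by linarith
          positivity
        have hrA : (A - 1) * r ≤ A := by
          rw [hr, mul_one_div, div_le_iff₀ (by linarith)]
          have : A * (1 - 1 / (2 * A)) = A - 1 / 2 := by field_simp
          rw [this]
          linarith
        calc (K * (B * M ^ (A - 1))) ^ r = (K * B) ^ r * (M ^ (A - 1)) ^ r := by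
              rw [← mul_assoc, Real.mul_rpow (by positivity) (by positivity)]
          _ = (K * B) ^ r * M ^ ((A - 1) * r) := by rw [← Real.rpow_mul hM0.le]
          _ ≤ M ^ (A * ε) * M ^ A := by
              apply mul_le_mul h3 (Real.rpow_le_rpow_of_exponent_le hl1 hrA) (by positivity) (by positivity)
          _ = M ^ A' := by rw [mul_comm, hMA]
  have h4 := Set.ncard_le_ncard hsub hX.1
  refine le_trans (by exact_mod_cast h4) (hX.2.trans ?_)
  apply Real.rpow_le_rpow_of_exponent_le hX1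
  have h5 : 1 / (3 * A) - 1 / (3 * A') ≤ ε / 2 := by
    have e : 1 / (3 * A) - 1 / (3 * A') = ε / (3 * A') := by
      rw [hA']; field_simp; ring
    rw [e, div_le_div_iff₀ (by positivity) (by norm_num)]
    nlinarith
  linarith

end Pool.Agent.K9h56.CX
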