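import Mathlib
import Pool.Agent.Y780.Cz.Ham
import Pool.Agent.H547R3.Sub.Tqk2
import Pool.Agent.K9h56.SC.Gcd
import Pool.Agent.K9h56.SC.Prim

/-!
# The length of a cycle of the `3x+k` map in terms of the complexity of its parity word
-/

set_option autoImplicit false

namespace Pool.Agent.K9h56.CX

open Finset Pool.Agent.K9h56.SC

/-- The factor `w a, w (a+1), ..., w (b-1)` of the sequence `w` has period `π`. -/
def HasPeriod (w : ℕ → ℤ) (π a b : ℕ) : Prop := ∀ j, a ≤ j → j + π < b → w (j + π) = w j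

/-- The word `w 0, w 1, ..., w (n-1)` is a concatenation of `m` words (cut at `0 = t 0 ≤ t 1 ≤ ... ≤
t m = n`), each of which has some period `π` with `1 ≤ π ≤ ℓ`. -/
def Splits (w : ℕ → ℤ) (ℓ m n : ℕ) : Prop :=
  ∃ t : ℕ → ℕ, t 0 = 0 ∧ t m = n ∧ (∀ i < m, t i ≤ t (i + 1)) ∧
    ∀ i < m, ∃ π, 1 ≤ π ∧ π ≤ ℓ ∧ HasPeriod w π (t i) (t (i + 1))

/-- Lempel-Ziv parse of `w 0, ..., w (n-1)` into `z` phrases -/
def Phrases (w : ℕ → ℤ) (n z : ℕ) : Prop :=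
  ∃ t : ℕ → ℕ, t 0 = 0 ∧ t z = n ∧ ∀ k < z, t k < t (k + 1) ∧
    (t (k + 1) = t k + 1 ∨ ∃ j < t k, ∀ i, t k + i + 1 < t (k + 1) → w (t k + i) = w (j + i))

/-- the parity word -/
def par (k x : ℤ) (i : ℕ) : ℤ := (T k)^[i] x % 2

theorem T_eq_Tm (k : ℤ) : T k = Pool.Agent.H547R3.Sub.Tm (3 : ℕ) k := by
  funext x
  simp [T, Pool.Agent.H547R3.Sub.Tm]

theorem T_eq_TY (k : ℤ) : T k = Pool.Agent.Y780.Cz.T 3 k := rfl

theorem dec_of_splits {k x : ℤ} {ℓ m n : ℕ} (h : Splits (par k x) ℓ m n) :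
    Pool.Agent.H547R3.Sub.Dec (Pool.Agent.H547R3.Sub.par (3 : ℕ) k x) ℓ m 0 n := by
  obtain ⟨t, h0, hm, hmono, hper⟩ := h
  refine ⟨t, h0, hm, hmono, fun i hi => ?_⟩
  obtain ⟨π, h1, h2, h3⟩ := hper i hi
  refine ⟨π, h1, h2, fun j hj1 hj2 => ?_⟩
  have h4 := h3 j hj1 hj2
  unfold par at h4
  simp only [T_eq_Tm] at h4
  exact Pool.Agent.H547R3.Sub.par_int _ _ _ _ _ h4

theorem sq_log_le {p : ℝ} (hp : 1 ≤ p) : (1 + Real.log p) ^ 2 ≤ 16 * Real.sqrt p := by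
  have hp0 : (0 : ℝ) < p := by linarith
  have h1 : Real.log p = 4 * Real.log (Real.sqrt (Real.sqrt p)) := by
    rw [Real.log_sqrt (Real.sqrt_nonneg _), Real.log_sqrt hp0.le]; ring
  have hs : 0 < Real.sqrt (Real.sqrt p) := Real.sqrt_pos.2 (Real.sqrt_pos.2 hp0)
  have h2 := Real.log_le_sub_one_of_pos hs
  have h3 : 1 + Real.log p ≤ 4 * Real.sqrt (Real.sqrt p) := by rw [h1]; linarith
  have h4 : 0 ≤ 1 + Real.log p := by have := Real.log_nonneg hp; linarith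
  calc (1 + Real.log p) ^ 2 ≤ (4 * Real.sqrt (Real.sqrt p)) ^ 2 := pow_le_pow_left₀ h4 h3 2
    _ = 16 * Real.sqrt p := by rw [mul_pow, Real.sq_sqrt (Real.sqrt_nonneg _)]; norm_num

theorem iterate_minimalPeriod_ne {k x : ℤ} {p : ℕ} (h : Function.minimalPeriod (T k) x = p) :
    (T k)^[p] x = x ∧ ∀ j, 1 ≤ j → j < p → (T k)^[j] x ≠ x := by
  subst h
  refine ⟨Function.isPeriodicPt_minimalPeriod _ _, fun j hj1 hj2 he => ?_⟩
  exact Function.not_isPeriodicPt_of_pos_of_lt_minimalPeriod (by omega) hj2 he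

theorem log_abs_nonneg {k : ℤ} (hk : k % 2 = 1) : 0 ≤ Real.log |(k : ℝ)| := by
  apply Real.log_nonneg
  have h1 : k ≠ 0 := by rintro rfl; simp at hk
  have h2 : 1 ≤ |k| := Int.one_le_abs h1
  exact_mod_cast h2

/-- cycles whose parity words consist of few periodic pieces -/
theorem pieces_bound {δ : ℝ} (hδ : 0 < δ) : ∃ A : ℝ, 1 ≤ A ∧ ∀ k : ℤ, k % 2 = 1 → ∀ (x : ℤ) (p m ℓ : ℕ),
    1 ≤ p → Function.minimalPeriod (T k) x = p → Splits (par k x) ℓ m p →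
    (p : ℝ) ≤ A * Real.exp (δ * m) * (ℓ + Real.log |(k : ℝ)| + 1) := by
  obtain ⟨A, hA, h⟩ := Pool.Agent.H547R3.Sub.cycleT2 (q := 3) Nat.prime_three (by norm_num) (2 / δ)
    (by positivity)
  refine ⟨2 * A + 256 * A ^ 2 + 1, by nlinarith [sq_nonneg A], fun k hk x p m ℓ hp hmp hS => ?_⟩
  obtain ⟨hper, hprim⟩ := iterate_minimalPeriod_ne hmp
  rw [T_eq_Tm] at hper hprim
  have h1 := h k hk x p m ℓ hp hper hprim (dec_of_splits hS)
  have hpR : (1 : ℝ) ≤ p := by exact_mod_cast hp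
  have hlk := log_abs_nonneg hk
  have h2 := sq_log_le hpR
  have e1 : (m : ℝ) / (2 / δ) = δ * m / 2 := by field_simp
  rw [e1] at h1
  set F := Real.exp (δ * m / 2) with hF
  have hF1 : 1 ≤ F := Real.one_le_exp (by positivity)
  have hFF : Real.exp (δ * m) = F ^ 2 := by
    rw [hF, ← Real.exp_nat_mul]; congr 1; push_cast; ring
  rw [hFF]
  set L := (ℓ : ℝ) + Real.log |(k : ℝ)| with hL
  have hL0 : 0 ≤ L := by rw [hL]; positivity
  have hs0 := Real.sqrt_nonneg (p : ℝ)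
  have hss := Real.sq_sqrt (show (0 : ℝ) ≤ p by linarith)
  have h3 : (p : ℝ) ≤ A * (L + 16 * Real.sqrt p) * F := by
    refine h1.trans ?_
    have : A * (L + (1 + Real.log p) ^ 2) ≤ A * (L + 16 * Real.sqrt p) :=
      mul_le_mul_of_nonneg_left (by linarith) hA.le
    exact mul_le_mul_of_nonneg_right this (by linarith)
  have h4 : 0 ≤ (Real.sqrt p - 16 * (A * F)) ^ 2 := sq_nonneg _
  have h5 : (p : ℝ) ≤ 2 * (A * L * F) + 256 * (A ^ 2 * F ^ 2) := by nlinarith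
  have h6 : F ≤ F ^ 2 := by nlinarith
  have h7 : A * L * F ≤ A * F ^ 2 * (L + 1) := by
    have : A * L * F ≤ A * L * F ^ 2 := mul_le_mul_of_nonneg_left h6 (by positivity)
    nlinarith [mul_nonneg hA.le (sq_nonneg F)]
  have h8 : A ^ 2 * F ^ 2 ≤ A ^ 2 * F ^ 2 * (L + 1) := le_mul_of_one_le_right (by positivity) (by linarith)
  have h9 : 0 ≤ F ^ 2 * (L + 1) := by positivity
  calc (p : ℝ) ≤ 2 * (A * L * F) + 256 * (A ^ 2 * F ^ 2) := h5
    _ ≤ 2 * (A * F ^ 2 * (L + 1)) + 256 * (A ^ 2 * F ^ 2 * (L + 1)) := by linarith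
    _ ≤ (2 * A + 256 * A ^ 2 + 1) * F ^ 2 * (L + 1) := by nlinarith

end Pool.Agent.K9h56.CX
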